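import Pool.Agent.Helper44.CM.Interface

/-!
# Project MM, block B1, third order bound (double maximum): statements
-/

namespace CM

variable {n : ℕ}

/-- Directional derivative. -/
noncomputable def dd (a : E n) (f : E n → ℝ) : E n → ℝ := fun x => fderiv ℝ f x a

/-- The `j`-th column of a matrix as a vector. -/
noncomputable def colv (P : Mt n) (j : Fin n) : E n := WithLp.toLp 2 fun i => P i j

/-- Derivatives of `log det` along a curve of matrices, up to order three; values at a point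
where the matrix is the identity. -/
def ST_LDC : Prop :=
  ∀ (n : ℕ) (g0 g1 g2 g3 : ℝ → Mt n),
    (∀ s i j, HasDerivAt (fun r => g0 r i j) (g1 s i j) s) →
    (∀ s i j, HasDerivAt (fun r => g1 r i j) (g2 s i j) s) →
    (∀ s i j, HasDerivAt (fun r => g2 r i j) (g3 s i j) s) →
    (∀ s, 0 < (g0 s).det) → g0 0 = 1 →
    ∃ L1 L2 L3 : ℝ → ℝ,
      (∀ s, HasDerivAt (fun r => Real.log (g0 r).det) (L1 s) s) ∧
      (∀ s, HasDerivAt L1 (L2 s) s) ∧ (∀ s, HasDerivAt L2 (L3 s) s) ∧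
      L1 0 = (g1 0).trace ∧ L2 0 = (g2 0).trace - (g1 0 * g1 0).trace ∧
      L3 0 = (g3 0).trace - 3 * (g1 0 * g2 0).trace + 2 * (g1 0 * g1 0 * g1 0).trace

/-- Simultaneous diagonalization of a positive definite and a symmetric matrix. -/
def ST_SDG : Prop :=
  ∀ (n : ℕ) (a : ℝ) (G T : Mt n), 0 < a → LB a G → G.IsSymm → T.IsSymm →
    ∃ (P : Mt n) (l : Fin n → ℝ), P.transpose * G * P = 1 ∧
      P.transpose * T * P = Matrix.diagonal l ∧ ∀ j, ∑ i, P i j ^ 2 ≤ 1 / a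

/-- Maximum of a bounded function of a point and a unit vector, penalised by `-δ |x|²`. -/
def ST_PMX : Prop :=
  ∀ (n : ℕ) (R : E n → E n → ℝ) (B δ : ℝ), 0 < n → 0 < δ →
    ContinuousOn (fun p : E n × E n => R p.1 p.2) (Set.univ ×ˢ Metric.sphere 0 1) →
    (∀ x e, ‖e‖ = 1 → R x e ≤ B) →
    ∃ x0 e0 : E n, ‖e0‖ = 1 ∧ ∀ x e, ‖e‖ = 1 → R x e - δ * ‖x‖ ^ 2 ≤ R x0 e0 - δ * ‖x0‖ ^ 2

/-- Second derivative test for a global maximum. -/
def ST_SDT : Prop :=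
  ∀ (f f1 : ℝ → ℝ) (f2 : ℝ), (∀ t, HasDerivAt f (f1 t) t) → HasDerivAt f1 f2 0 →
    (∀ t, f t ≤ f 0) → f1 0 = 0 ∧ f2 ≤ 0

/-- Third order bound. -/
def ST_AP3 : Prop :=
  ∀ (n : ℕ) (c K R0 K0 : ℝ), ∃ K1 : ℝ, ∀ F V : E n → ℝ, FOK c K R0 F → Sol F V →
    (∀ x, LB c (hess V x)) → (∀ x i j, |hess V x i j| ≤ K0) →
    ∀ x (l : List (Fin n)), l.length = 3 → |pdl l V x| ≤ K1

end CM
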