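import Pool.Agent.Helper85.MM.AP3
import Pool.Agent.Helper71.MM.B1

namespace CM

/-- Block B1 of project MM. -/
theorem st_B1 : ST_B1 := Helper71.MM.st_B1 st_AP3

end CM
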