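import Pool.Agent.Helper85.MM.Bd
import Pool.Agent.Helper70.MM.SDG
import Pool.Agent.Helper8.MM.LDC

namespace CM

variable {n : ℕ}

lemma det_pos_of_LB {c : ℝ} (hc : 0 < c) {M : Mt n} (hs : M.IsSymm) (h : LB c M) : 0 < M.det := by
  have : M.PosDef := by
    refine Matrix.PosDef.of_dotProduct_mulVec_pos ?_ fun v hv => ?_
    · rw [Matrix.IsHermitian, Matrix.conjTranspose_eq_transpose_of_trivial]
      exact hs
    · have h1 := h v
      have h2 : 0 < ∑ i, v i ^ 2 := by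
        by_contra hneg
        push Not at hneg
        apply hv
        funext i
        have h3 : v i ^ 2 ≤ ∑ i, v i ^ 2 :=
          Finset.single_le_sum (f := fun i => v i ^ 2) (fun i _ => sq_nonneg _) (Finset.mem_univ i)
        have h4 : v i ^ 2 = 0 := le_antisymm (h3.trans hneg) (sq_nonneg _)
        simpa using h4
      have h3 : star v ⬝ᵥ M.mulVec v = ∑ i, ∑ j, v i * M i j * v j := by
        simp only [dotProduct, Matrix.mulVec, Pi.star_apply, star_trivial, Finset.mul_sum]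
        refine Finset.sum_congr rfl fun i _ => Finset.sum_congr rfl fun j _ => ?_
        ring
      rw [h3]
      exact lt_of_lt_of_le (mul_pos hc h2) h1
  exact this.det_pos

/-- The bound of the normalised third derivative. -/
lemma main_bound (hL : ST_LDC) (hS : ST_SDG) {c K R0 : ℝ} {F V : E n → ℝ}
    (hF : FOK c K R0 F) (hV : Sol F V) (hlb : ∀ x, LB c (hess V x)) (x e : E n) :
    dd e (dd e (dd e V)) x ^ 2 ≤
      4 * (n ^ 3 * K * (1 / c) ^ 3) ^ 2 * dd e (dd e V) x ^ 3 := by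
  have hc := hF.c_pos
  have hc1 := hF.c_le
  have hK := hF.K_ge
  obtain ⟨M, hM⟩ := hV.reg
  have hV5 : ContDiff ℝ 5 V := by
    have := hM.1
    exact_mod_cast this
  have hV3 : ContDiff ℝ 3 V := hV5.of_le (by norm_num)
  have hV2 : ContDiff ℝ 2 V := hV5.of_le (by norm_num)
  have hF5 : ContDiff ℝ 5 F := by
    have := hF.bd.1
    exact_mod_cast this
  have hF2 : ContDiff ℝ 2 F := hF5.of_le (by norm_num)
  have hpos : ∀ x, 0 < (hess V x).det := fun x => det_pos_of_LB hc (hess_isSymm hV2 x) (hlb x)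
  set κ : ℝ := n ^ 3 * K * (1 / c) ^ 3 with hκdef
  have hκ0 : 0 ≤ κ := by positivity
  have hMV : ∀ x i j k, |pd k (pd i (pd j V)) x| ≤ M := by
    intro x i j k
    exact ((hM.2 i j).2 [k] (by simp)).1 x
  have hMF : ∀ x i j k, |pd k (pd i (pd j F)) x| ≤ K := by
    intro x i j k
    exact (hF.bd.2 [k, i, j] (by simp)).1 x
  have hpge : ∀ x e, c * ‖e‖ ^ 2 ≤ dd e (dd e V) x := fun x e => p_ge hV2 (hlb x) e
  have hcvx : ∀ x e, 0 ≤ ‖e‖ ^ 2 + dd e (dd e F) x := by
    intro x e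
    have h := hF.cvx x (fun i => e i)
    rw [dd_dd_eq_sum hF2, EuclideanSpace.real_norm_sq_eq]
    have h1 : ∑ i, ∑ j, e i * ((1 : Mt n) + hess F x) i j * e j =
        ∑ i, e i ^ 2 + ∑ i, ∑ j, e i * hess F x i j * e j := by
      rw [← Finset.sum_add_distrib]
      refine Finset.sum_congr rfl fun i _ => ?_
      simp only [Matrix.add_apply, Matrix.one_apply, mul_add, add_mul, Finset.sum_add_distrib]
      simp [sq]
    rw [h1] at h
    have h2 : 0 ≤ c * ∑ i, e i ^ 2 := by positivity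
    exact h2.trans h
  rcases Nat.eq_zero_or_pos n with hn | hn
  · subst hn
    have he : e = 0 := Subsingleton.elim _ _
    subst he
    simp [dd]
  have key : ∀ δ : ℝ, 0 < δ → ∀ x e : E n, dd e (dd e (dd e V)) x ^ 2 ≤
      (4 * κ ^ 2 + 4 * δ * (n * (1 / c)) + δ * ‖x‖ ^ 2) * dd e (dd e V) x ^ 3 := by
    intro δ hδ
    -- the ratio
    let R : E n → E n → ℝ := fun x e => dd e (dd e (dd e V)) x ^ 2 / dd e (dd e V) x ^ 3
    have hp0 : ∀ x e : E n, ‖e‖ = 1 → 0 < dd e (dd e V) x := by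
      intro x e he
      have := hpge x e
      rw [he] at this
      linarith
    have hRc : ContinuousOn (fun p : E n × E n => R p.1 p.2) (Set.univ ×ˢ Metric.sphere 0 1) := by
      refine ContinuousOn.div ((A_cont hV5).pow 2).continuousOn ((p_cont hV2).pow 3).continuousOn ?_
      intro p hp
      have : ‖p.2‖ = 1 := by simpa using hp.2
      exact (pow_pos (hp0 p.1 p.2 this) 3).ne'
    have hRb : ∀ x e, ‖e‖ = 1 → R x e ≤ (n ^ 3 * M) ^ 2 / c ^ 3 := by
      intro x e he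
      have h1 := bound3 hV5 (hMV x) e
      rw [he, one_pow, mul_one] at h1
      have h2 := hpge x e
      rw [he, one_pow, mul_one] at h2
      have h3 : dd e (dd e (dd e V)) x ^ 2 ≤ (n ^ 3 * M) ^ 2 := sq_le_sq' (by
        have := (abs_le.1 h1).1
        linarith) (abs_le.1 h1).2
      exact div_le_div₀ (sq_nonneg _) h3 (by positivity) (pow_le_pow_left₀ hc.le h2 3)
    obtain ⟨x0, e0, he0, hmx⟩ := st_PMX n R _ δ hn hδ hRc hRb
    set m0 : ℝ := R x0 e0 - δ * ‖x0‖ ^ 2 with hm0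
    have hmax1 : ∀ x e : E n, ‖e‖ = 1 →
        dd e (dd e (dd e V)) x ^ 2 - (m0 + δ * ‖x‖ ^ 2) * dd e (dd e V) x ^ 3 ≤ 0 := by
      intro x e he
      have h1 := hmx x e he
      have h2 := hp0 x e he
      have h3 : dd e (dd e (dd e V)) x ^ 2 = R x e * dd e (dd e V) x ^ 3 := by
        simp only [R]
        field_simp
      rw [h3]
      have h4 : R x e ≤ m0 + δ * ‖x‖ ^ 2 := by linarith
      have := mul_le_mul_of_nonneg_right h4 (pow_pos h2 3).le
      linarith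
    have hmax : ∀ x e : E n,
        dd e (dd e (dd e V)) x ^ 2 - (m0 + δ * ‖x‖ ^ 2) * dd e (dd e V) x ^ 3 ≤ 0 := by
      intro x e
      rcases eq_or_ne e 0 with he | he
      · subst he
        simp [dd]
      · have hne : 0 < ‖e‖ := norm_pos_iff.2 he
        have h1 := hmax1 x (‖e‖⁻¹ • e) (by
          rw [norm_smul, norm_inv, norm_norm, inv_mul_cancel₀ hne.ne'])
        rw [A_smul hV3, p_smul hV2] at h1
        have h2 : 0 ≤ ‖e‖ ^ 6 := by positivity
        have h3 := mul_nonpos_of_nonneg_of_nonpos h2 h1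
        have h4 : ‖e‖ ^ 6 * ((‖e‖⁻¹ ^ 3 * dd e (dd e (dd e V)) x) ^ 2 -
            (m0 + δ * ‖x‖ ^ 2) * (‖e‖⁻¹ ^ 2 * dd e (dd e V) x) ^ 3) =
            dd e (dd e (dd e V)) x ^ 2 - (m0 + δ * ‖x‖ ^ 2) * dd e (dd e V) x ^ 3 := by
          field_simp
        rw [h4] at h3
        exact h3
    -- the bound of m0
    have hm : m0 ≤ 4 * κ ^ 2 + 4 * δ * (n * (1 / c)) := by
      have hnn : 0 ≤ δ * ‖x0‖ ^ 2 := by positivity
      have hp00 := hp0 x0 e0 he0
      by_cases hA0 : dd e0 (dd e0 (dd e0 V)) x0 = 0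
      · have : R x0 e0 = 0 := by simp [R, hA0]
        rw [hm0, this]
        have : 0 ≤ 4 * κ ^ 2 + 4 * δ * (n * (1 / c)) := by positivity
        linarith
      · -- rescaled vector
        obtain ⟨σ, hσ2, hσ⟩ : ∃ σ : ℝ, σ ^ 2 = 1 ∧ 0 < σ * dd e0 (dd e0 (dd e0 V)) x0 := by
          rcases lt_or_gt_of_ne hA0 with h | h
          · exact ⟨-1, by norm_num, by linarith⟩
          · exact ⟨1, by norm_num, by linarith⟩
        set q : ℝ := (Real.sqrt (dd e0 (dd e0 V) x0))⁻¹ with hq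
        have hq0 : 0 < q := by
          rw [hq]
          exact inv_pos.2 (Real.sqrt_pos.2 hp00)
        have hq2 : q ^ 2 * dd e0 (dd e0 V) x0 = 1 := by
          rw [hq, inv_pow, Real.sq_sqrt hp00.le, inv_mul_cancel₀ hp00.ne']
        set s : ℝ := σ * q with hs
        have hs2 : s ^ 2 = q ^ 2 := by rw [hs, mul_pow, hσ2, one_mul]
        have hp1 : dd (s • e0) (dd (s • e0) V) x0 = 1 := by
          rw [p_smul hV2, hs2, hq2]
        have hA1 : 0 < dd (s • e0) (dd (s • e0) (dd (s • e0) V)) x0 := by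
          rw [A_smul hV3]
          have : s ^ 3 * dd e0 (dd e0 (dd e0 V)) x0 =
              q ^ 3 * (σ ^ 2 * (σ * dd e0 (dd e0 (dd e0 V)) x0)) := by rw [hs]; ring
          rw [this, hσ2, one_mul]
          exact mul_pos (pow_pos hq0 3) hσ
        have hm1 : dd (s • e0) (dd (s • e0) (dd (s • e0) V)) x0 ^ 2 = m0 + δ * ‖x0‖ ^ 2 := by
          rw [A_smul hV3]
          have h1 : m0 + δ * ‖x0‖ ^ 2 = R x0 e0 := by rw [hm0]; ring
          rw [h1]
          simp only [R]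
          rw [eq_div_iff (pow_pos hp00 3).ne']
          have : (s ^ 3 * dd e0 (dd e0 (dd e0 V)) x0) ^ 2 * dd e0 (dd e0 V) x0 ^ 3 =
              (s ^ 2 * dd e0 (dd e0 V) x0) ^ 3 * dd e0 (dd e0 (dd e0 V)) x0 ^ 2 := by ring
          rw [this, hs2, hq2]
          ring
        have hne : ‖s • e0‖ ≤ 1 / c := by
          have h1 := hpge x0 (s • e0)
          rw [hp1] at h1
          have h2 : ‖s • e0‖ ^ 2 ≤ (1 / c) ^ 2 := by
            have h3 : ‖s • e0‖ ^ 2 ≤ 1 / c := by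
              rw [le_div_iff₀ hc]
              linarith
            have h4 : 1 ≤ 1 / c := by
              rw [le_div_iff₀ hc]
              linarith
            nlinarith
          exact le_of_sq_le_sq h2 (by positivity) |>.trans le_rfl
        have hFb : dd (s • e0) (dd (s • e0) (dd (s • e0) F)) x0 ≤ κ := by
          refine (le_abs_self _).trans ((bound3 hF5 (hMF x0) _).trans ?_)
          rw [hκdef]
          exact mul_le_mul_of_nonneg_left (pow_le_pow_left₀ (norm_nonneg _) hne 3) (by positivity)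
        have hfin := core hL hS hV5 hF5 hc hlb hpos hV.eq hδ (hcvx x0 (s • e0)) hmax hm1 hp1 hA1 hFb
        rw [hm1] at hfin
        set A := dd (s • e0) (dd (s • e0) (dd (s • e0) V)) x0 with hAd
        have h5 : 2 * A * κ ≤ A ^ 2 / 2 + 2 * κ ^ 2 := by nlinarith [sq_nonneg (A - 2 * κ)]
        rw [hm1] at h5
        linarith
    intro x e
    have h1 := hmax x e
    have h2 : 0 ≤ dd e (dd e V) x := le_trans (by positivity) (hpge x e)
    have h3 : (m0 + δ * ‖x‖ ^ 2) * dd e (dd e V) x ^ 3 ≤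
        (4 * κ ^ 2 + 4 * δ * (n * (1 / c)) + δ * ‖x‖ ^ 2) * dd e (dd e V) x ^ 3 :=
      mul_le_mul_of_nonneg_right (by linarith) (pow_nonneg h2 3)
    linarith
  -- let δ → 0
  refine le_of_forall_pos_le_add fun ε hε => ?_
  have hp : 0 ≤ dd e (dd e V) x ^ 3 := pow_nonneg (le_trans (by positivity) (hpge x e)) 3
  set D : ℝ := (4 * (n * (1 / c)) + ‖x‖ ^ 2) * dd e (dd e V) x ^ 3 with hD
  have hD0 : 0 ≤ D := mul_nonneg (by positivity) hp
  have h1 := key (ε / (D + 1)) (by positivity) x e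
  have h2 : ε / (D + 1) * D ≤ ε := by
    rw [div_mul_eq_mul_div, div_le_iff₀ (by positivity)]
    nlinarith
  have h3 : (4 * κ ^ 2 + 4 * (ε / (D + 1)) * (n * (1 / c)) + ε / (D + 1) * ‖x‖ ^ 2) *
      dd e (dd e V) x ^ 3 = 4 * κ ^ 2 * dd e (dd e V) x ^ 3 + ε / (D + 1) * D := by
    rw [hD]
    ring
  rw [h3] at h1
  linarith

theorem st_AP3 : ST_AP3 := by
  intro n c K R0 K0
  refine ⟨5 * (2 * (n ^ 3 * K * (1 / c) ^ 3) * (n ^ 2 * K0 + 1) ^ 2), ?_⟩
  intro F V hF hV hlb hK0 x l hl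
  obtain ⟨M, hM⟩ := hV.reg
  have hV5 : ContDiff ℝ 5 V := by
    have := hM.1
    exact_mod_cast this
  have hV3 : ContDiff ℝ 3 V := hV5.of_le (by norm_num)
  have hV2 : ContDiff ℝ 2 V := hV5.of_le (by norm_num)
  have hc := hF.c_pos
  have hK := hF.K_ge
  match l, hl with
  | [i, j, k], _ =>
    have hK00 : 0 ≤ K0 := (abs_nonneg _).trans (hK0 x i j)
    set κ : ℝ := n ^ 3 * K * (1 / c) ^ 3 with hκdef
    have hκ0 : 0 ≤ κ := by positivity
    have hQ : ∀ e : E n, |dd e (dd e (dd e V)) x| ≤ 2 * κ * (n ^ 2 * K0 + 1) ^ 2 * ‖e‖ ^ 3 := by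
      intro e
      have h1 := main_bound Helper8.MM.LDC.row st_SDG hF hV hlb x e
      have h2 := bound2 hV2 (hK0 x) e
      have h3 : 0 ≤ dd e (dd e V) x := le_trans (by positivity) (p_ge hV2 (hlb x) e)
      rw [abs_of_nonneg h3] at h2
      have h4 : dd e (dd e V) x ^ 3 ≤ (n ^ 2 * K0 * ‖e‖ ^ 2) ^ 3 := pow_le_pow_left₀ h3 h2 3
      have h5 : (n ^ 2 * K0) ^ 3 ≤ (n ^ 2 * K0 + 1) ^ 4 := by
        have h6 : 0 ≤ (n : ℝ) ^ 2 * K0 := by positivity
        have h7 : ((n : ℝ) ^ 2 * K0) ^ 3 ≤ (n ^ 2 * K0 + 1) ^ 3 :=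
          pow_le_pow_left₀ h6 (by linarith) 3
        have h8 : ((n : ℝ) ^ 2 * K0 + 1) ^ 3 ≤ (n ^ 2 * K0 + 1) ^ 4 :=
          pow_le_pow_right₀ (by linarith) (by norm_num)
        exact h7.trans h8
      have h6 : dd e (dd e (dd e V)) x ^ 2 ≤ (2 * κ * (n ^ 2 * K0 + 1) ^ 2 * ‖e‖ ^ 3) ^ 2 := by
        refine h1.trans ?_
        have h7 : 4 * κ ^ 2 * dd e (dd e V) x ^ 3 ≤ 4 * κ ^ 2 * (n ^ 2 * K0 * ‖e‖ ^ 2) ^ 3 :=
          mul_le_mul_of_nonneg_left h4 (by positivity)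
        refine h7.trans ?_
        have h8 : 4 * κ ^ 2 * (n ^ 2 * K0 * ‖e‖ ^ 2) ^ 3 =
            (4 * κ ^ 2 * ‖e‖ ^ 6) * (n ^ 2 * K0) ^ 3 := by ring
        have h9 : (2 * κ * (n ^ 2 * K0 + 1) ^ 2 * ‖e‖ ^ 3) ^ 2 =
            (4 * κ ^ 2 * ‖e‖ ^ 6) * (n ^ 2 * K0 + 1) ^ 4 := by ring
        rw [h8, h9]
        exact mul_le_mul_of_nonneg_left h5 (by positivity)
      exact abs_le_of_sq_le_sq h6 (by positivity)
    have := polar hV3 hQ (EuclideanSpace.single k 1) (EuclideanSpace.single j 1)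
      (EuclideanSpace.single i 1) (by simp) (by simp) (by simp)
    exact this

end CM
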