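import Pool.Agent.Helper85.MM.Core

namespace CM

variable {n : ℕ}

lemma abs_coord_le (e : E n) (i : Fin n) : |e i| ≤ ‖e‖ := by
  have := EuclideanSpace.norm_eq e
  rw [this]
  refine Real.le_sqrt_of_sq_le ?_
  rw [sq_abs]
  have h := Finset.single_le_sum (f := fun i => ‖e i‖ ^ 2) (fun i _ => sq_nonneg _)
    (Finset.mem_univ i)
  simpa [Real.norm_eq_abs, sq_abs] using h

lemma A_eq_sum {V : E n → ℝ} (hV : ContDiff ℝ 5 V) (e x : E n) :
    dd e (dd e (dd e V)) x =
      ∑ i, ∑ j, e i * (∑ k, e k * pd k (pd i (pd j V)) x) * e j := by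
  have hV5 : ContDiff ℝ (4 + 1 : ℕ) V := by exact_mod_cast hV
  have hV2 : ContDiff ℝ 2 V := hV.of_le (by norm_num)
  have hde : ContDiff ℝ (3 + 1 : ℕ) (dd e V) := dd_contDiff hV5 e
  have hde2 : ContDiff ℝ 2 (dd e V) := hde.of_le (by norm_cast)
  rw [dd_dd_eq_sum hde2]
  refine Finset.sum_congr rfl fun i _ => Finset.sum_congr rfl fun j _ => ?_
  congr 2
  simp only [hess, Matrix.of_apply]
  rw [pd_eq_dd j, dd_comm hV2, pd_eq_dd i, dd_comm, dd_eq_sum]
  · rfl
  · have : ContDiff ℝ (3 + 1 : ℕ) (dd (EuclideanSpace.single j (1 : ℝ)) V) := dd_contDiff hV5 _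
    exact this.of_le (by norm_cast)

lemma bound3 {V : E n → ℝ} (hV : ContDiff ℝ 5 V) {M : ℝ} {x : E n}
    (hM : ∀ i j k, |pd k (pd i (pd j V)) x| ≤ M) (e : E n) :
    |dd e (dd e (dd e V)) x| ≤ n ^ 3 * M * ‖e‖ ^ 3 := by
  rw [A_eq_sum hV]
  have h1 : ∀ i j, |∑ k, e k * pd k (pd i (pd j V)) x| ≤ n * (‖e‖ * M) := by
    intro i j
    refine (Finset.abs_sum_le_sum_abs _ _).trans ?_
    have : ∀ k ∈ Finset.univ, |e k * pd k (pd i (pd j V)) x| ≤ ‖e‖ * M := by
      intro k _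
      rw [abs_mul]
      exact mul_le_mul (abs_coord_le e k) (hM i j k) (abs_nonneg _) (norm_nonneg _)
    refine (Finset.sum_le_sum this).trans ?_
    simp
  refine (Finset.abs_sum_le_sum_abs _ _).trans ?_
  have h2 : ∀ i ∈ Finset.univ, |∑ j, e i * (∑ k, e k * pd k (pd i (pd j V)) x) * e j| ≤
      n * (‖e‖ * (n * (‖e‖ * M)) * ‖e‖) := by
    intro i _
    refine (Finset.abs_sum_le_sum_abs _ _).trans ?_
    have : ∀ j ∈ Finset.univ, |e i * (∑ k, e k * pd k (pd i (pd j V)) x) * e j| ≤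
        ‖e‖ * (n * (‖e‖ * M)) * ‖e‖ := by
      intro j _
      rw [abs_mul, abs_mul]
      have h3 := mul_le_mul (abs_coord_le e i) (h1 i j) (abs_nonneg _) (norm_nonneg _)
      exact mul_le_mul h3 (abs_coord_le e j) (abs_nonneg _)
        (le_trans (mul_nonneg (abs_nonneg _) (abs_nonneg _)) h3)
    refine (Finset.sum_le_sum this).trans ?_
    simp
  refine (Finset.sum_le_sum h2).trans ?_
  simp only [Finset.sum_const, Finset.card_univ, Fintype.card_fin, nsmul_eq_mul]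
  apply le_of_eq
  ring

lemma bound2 {V : E n → ℝ} (hV : ContDiff ℝ 2 V) {M : ℝ} {x : E n}
    (hM : ∀ i j, |hess V x i j| ≤ M) (e : E n) :
    |dd e (dd e V) x| ≤ n ^ 2 * M * ‖e‖ ^ 2 := by
  rw [dd_dd_eq_sum hV]
  refine (Finset.abs_sum_le_sum_abs _ _).trans ?_
  have h2 : ∀ i ∈ Finset.univ, |∑ j, e i * hess V x i j * e j| ≤
      n * (‖e‖ * M * ‖e‖) := by
    intro i _
    refine (Finset.abs_sum_le_sum_abs _ _).trans ?_
    have : ∀ j ∈ Finset.univ, |e i * hess V x i j * e j| ≤ ‖e‖ * M * ‖e‖ := by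
      intro j _
      rw [abs_mul, abs_mul]
      have h3 := mul_le_mul (abs_coord_le e i) (hM i j) (abs_nonneg _) (norm_nonneg _)
      exact mul_le_mul h3 (abs_coord_le e j) (abs_nonneg _)
        (le_trans (mul_nonneg (abs_nonneg _) (abs_nonneg _)) h3)
    refine (Finset.sum_le_sum this).trans ?_
    simp
  refine (Finset.sum_le_sum h2).trans ?_
  simp only [Finset.sum_const, Finset.card_univ, Fintype.card_fin, nsmul_eq_mul]
  apply le_of_eq
  ring

lemma dd_smul_fun (s : ℝ) (e : E n) (f : E n → ℝ) : dd (s • e) f = fun x => s * dd e f x := by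
  funext x
  exact dd_smul_dir s e f x

lemma p_smul {V : E n → ℝ} (hV : ContDiff ℝ 2 V) (s : ℝ) (e x : E n) :
    dd (s • e) (dd (s • e) V) x = s ^ 2 * dd e (dd e V) x := by
  have h1 : Differentiable ℝ (dd e V) :=
    (dd_contDiff (k := 1) (by exact_mod_cast hV) e).differentiable (by norm_num)
  rw [dd_smul_dir, dd_smul_fun, dd_fconst_mul h1]
  ring

lemma A_smul {V : E n → ℝ} (hV : ContDiff ℝ 3 V) (s : ℝ) (e x : E n) :
    dd (s • e) (dd (s • e) (dd (s • e) V)) x = s ^ 3 * dd e (dd e (dd e V)) x := by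
  have hV3 : ContDiff ℝ (2 + 1 : ℕ) V := by exact_mod_cast hV
  have hV2 : ContDiff ℝ 2 V := hV.of_le (by norm_num)
  have h2 : Differentiable ℝ (dd e (dd e V)) :=
    (dd_contDiff (k := 1) (dd_contDiff (k := 2) hV3 e) e).differentiable (by norm_num)
  have e1 : dd (s • e) (dd (s • e) V) = fun x => s ^ 2 * dd e (dd e V) x := by
    funext y
    exact p_smul hV2 s e y
  rw [e1, dd_smul_dir, dd_fconst_mul h2]
  ring

lemma p_ge {V : E n → ℝ} (hV : ContDiff ℝ 2 V) {c : ℝ} {x : E n} (h : LB c (hess V x)) (e : E n) :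
    c * ‖e‖ ^ 2 ≤ dd e (dd e V) x := by
  rw [dd_dd_eq_sum hV, EuclideanSpace.real_norm_sq_eq]
  exact h (fun i => e i)

lemma p_cont {V : E n → ℝ} (hV : ContDiff ℝ 2 V) :
    Continuous (fun p : E n × E n => dd p.2 (dd p.2 V) p.1) := by
  have : (fun p : E n × E n => dd p.2 (dd p.2 V) p.1) =
      fun p : E n × E n => ∑ i, ∑ j, p.2 i * hess V p.1 i j * p.2 j := by
    funext p
    exact dd_dd_eq_sum hV _ _ _
  rw [this]
  have hc : ∀ i j, Continuous (fun x => hess V x i j) := by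
    intro i j
    simp only [hess, Matrix.of_apply]
    have h1 : ContDiff ℝ (0 + 1 : ℕ) (pd j V) := pd_contDiff (k := 1) (by exact_mod_cast hV) j
    have h2 : ContDiff ℝ (0 : ℕ) (pd i (pd j V)) := pd_contDiff (k := 0) h1 i
    exact h2.continuous
  refine continuous_finsetSum _ fun i _ => continuous_finsetSum _ fun j _ => ?_
  have h3 := (hc i j).comp (continuous_fst (X := E n) (Y := E n))
  have h4 : ∀ k : Fin n, Continuous (fun p : E n × E n => p.2 k) := fun k =>
    (EuclideanSpace.proj (𝕜 := ℝ) k).continuous.comp continuous_snd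
  exact ((h4 i).mul h3).mul (h4 j)

lemma A_cont {V : E n → ℝ} (hV : ContDiff ℝ 5 V) :
    Continuous (fun p : E n × E n => dd p.2 (dd p.2 (dd p.2 V)) p.1) := by
  have : (fun p : E n × E n => dd p.2 (dd p.2 (dd p.2 V)) p.1) =
      fun p : E n × E n =>
        ∑ i, ∑ j, p.2 i * (∑ k, p.2 k * pd k (pd i (pd j V)) p.1) * p.2 j := by
    funext p
    exact A_eq_sum hV _ _
  rw [this]
  have hc : ∀ i j k, Continuous (pd k (pd i (pd j V))) := by
    intro i j k
    have h1 : ContDiff ℝ (3 + 1 : ℕ) (pd j V) :=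
      pd_contDiff (k := 4) (by exact_mod_cast hV) j
    have h2 : ContDiff ℝ (2 + 1 : ℕ) (pd i (pd j V)) := pd_contDiff (k := 3) h1 i
    have h3 : ContDiff ℝ (2 : ℕ) (pd k (pd i (pd j V))) := pd_contDiff (k := 2) h2 k
    exact h3.continuous
  have h4 : ∀ k : Fin n, Continuous (fun p : E n × E n => p.2 k) := fun k =>
    (EuclideanSpace.proj (𝕜 := ℝ) k).continuous.comp continuous_snd
  refine continuous_finsetSum _ fun i _ => continuous_finsetSum _ fun j _ => ?_
  refine ((h4 i).mul (continuous_finsetSum _ fun k _ => ?_)).mul (h4 j)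
  exact (h4 k).mul ((hc i j k).comp continuous_fst)

/-- Polarization. -/
lemma polar {V : E n → ℝ} (hV : ContDiff ℝ 3 V) {Q : ℝ} {x : E n}
    (hQ : ∀ e, |dd e (dd e (dd e V)) x| ≤ Q * ‖e‖ ^ 3) (a b c : E n) (ha : ‖a‖ = 1)
    (hb : ‖b‖ = 1) (hc : ‖c‖ = 1) : |dd c (dd b (dd a V)) x| ≤ 5 * Q := by
  have hV3 : ContDiff ℝ (2 + 1 : ℕ) V := by exact_mod_cast hV
  have hV2 : ContDiff ℝ 2 V := hV.of_le (by norm_num)
  have hda : ContDiff ℝ 2 (dd a V) := by
    have := dd_contDiff hV3 a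
    exact_mod_cast this
  have hde : ∀ e, ContDiff ℝ 2 (dd e V) := by
    intro e
    have := dd_contDiff hV3 e
    exact_mod_cast this
  have hQ0 : 0 ≤ Q := by
    have := (abs_nonneg _).trans (hQ a)
    rw [ha] at this
    simpa using this
  -- bound for two equal arguments
  have h2 : ∀ e, ‖e‖ ≤ 2 → |dd e (dd e (dd a V)) x| ≤ 10 * Q := by
    intro e he
    have A1 := A_expand hV e a 1 x
    have A2 := A_expand hV e a (-1) x
    have hcom : dd a (dd e (dd e V)) x = dd e (dd e (dd a V)) x := by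
      rw [dd_comm (hde e) a e, dd_comm hV2 a e]
    rw [hcom] at A1 A2
    have n1 : ‖e + (1 : ℝ) • a‖ ≤ 3 := by
      refine (norm_add_le _ _).trans ?_
      rw [one_smul, ha]
      linarith
    have n2 : ‖e + (-1 : ℝ) • a‖ ≤ 3 := by
      refine (norm_add_le _ _).trans ?_
      rw [norm_smul, ha]
      norm_num
      linarith
    have b1 : |dd (e + (1 : ℝ) • a) (dd (e + (1 : ℝ) • a) (dd (e + (1 : ℝ) • a) V)) x| ≤ 27 * Q := by
      refine (hQ _).trans ?_
      have := pow_le_pow_left₀ (norm_nonneg _) n1 3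
      nlinarith [mul_le_mul_of_nonneg_left this hQ0]
    have b2 : |dd (e + (-1 : ℝ) • a) (dd (e + (-1 : ℝ) • a) (dd (e + (-1 : ℝ) • a) V)) x| ≤
        27 * Q := by
      refine (hQ _).trans ?_
      have := pow_le_pow_left₀ (norm_nonneg _) n2 3
      nlinarith [mul_le_mul_of_nonneg_left this hQ0]
    have b3 := hQ a
    rw [ha] at b3
    rw [A1] at b1
    rw [A2] at b2
    rw [abs_le] at *
    constructor <;> linarith [b1.1, b1.2, b2.1, b2.2, b3.1, b3.2]
  have P1 := p_expand hda b c 1 x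
  have P2 := p_expand hda b c (-1) x
  have n1 : ‖b + (1 : ℝ) • c‖ ≤ 2 := by
    refine (norm_add_le _ _).trans ?_
    rw [one_smul, hb, hc]
    norm_num
  have n2 : ‖b + (-1 : ℝ) • c‖ ≤ 2 := by
    refine (norm_add_le _ _).trans ?_
    rw [norm_smul, hb, hc]
    norm_num
  have b1 := h2 _ n1
  have b2 := h2 _ n2
  rw [P1] at b1
  rw [P2] at b2
  rw [abs_le] at *
  constructor <;> linarith [b1.1, b1.2, b2.1, b2.2]

end CM
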