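import Pool.Agent.Helper85.MM.Exp

namespace CM

variable {n : ℕ}

lemma hess_isSymm {f : E n → ℝ} (hf : ContDiff ℝ 2 f) (x : E n) : (hess f x).IsSymm := by
  ext i j
  simp only [Matrix.transpose_apply, hess, Matrix.of_apply, pd_eq_dd]
  rw [dd_comm hf]

/-- The main pointwise inequality at the penalised maximum. -/
lemma core (hL : ST_LDC) (hS : ST_SDG) {V F : E n → ℝ} (hV : ContDiff ℝ 5 V)
    (hF : ContDiff ℝ 5 F) {c : ℝ} (hc : 0 < c)
    (hlb : ∀ x, LB c (hess V x)) (hpos : ∀ x, 0 < (hess V x).det)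
    (heq : ∀ x, WW V x = qn x + F x) {κ : ℝ}
    {m0 δ : ℝ} (hδ : 0 < δ) {x0 e : E n}
    (hcvx : 0 ≤ ‖e‖ ^ 2 + dd e (dd e F) x0)
    (hmax : ∀ x e', dd e' (dd e' (dd e' V)) x ^ 2 - (m0 + δ * ‖x‖ ^ 2) * dd e' (dd e' V) x ^ 3 ≤ 0)
    (hm : dd e (dd e (dd e V)) x0 ^ 2 = m0 + δ * ‖x0‖ ^ 2) (hp : dd e (dd e V) x0 = 1)
    (hA : 0 < dd e (dd e (dd e V)) x0) (hκ : dd e (dd e (dd e F)) x0 ≤ κ) :
    dd e (dd e (dd e V)) x0 ^ 2 ≤ 2 * dd e (dd e (dd e V)) x0 * κ + 2 * δ * (n * (1 / c)) := by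
  have hV5 : ContDiff ℝ (4 + 1 : ℕ) V := by exact_mod_cast hV
  have hV2 : ContDiff ℝ 2 V := hV.of_le (by norm_num)
  have hde : ContDiff ℝ (3 + 1 : ℕ) (dd e V) := dd_contDiff hV5 e
  have hde2 : ContDiff ℝ 2 (dd e V) := hde.of_le (by norm_cast)
  obtain ⟨P, l, hP, hT, hcol⟩ := hS n c (hess V x0) (hess (dd e V) x0) hc (hlb x0)
    (hess_isSymm hV2 x0) (hess_isSymm hde2 x0)
  obtain ⟨idA, idB⟩ := pid hL hV hF hpos heq x0 e P l hP hT
  set a : Fin n → E n := fun j => colv P j with ha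
  have hP' : P * (P.transpose * hess V x0) = 1 := mul_eq_one_comm.1 hP
  set w : Fin n → ℝ := (P.transpose * hess V x0).mulVec (fun i => e i) with hw
  have hPw : P.mulVec w = fun i => e i := by
    rw [hw, Matrix.mulVec_mulVec, hP', Matrix.one_mulVec]
  have he : e = ∑ j, w j • a j := by
    ext i
    have := congrFun hPw i
    simp only [Matrix.mulVec, dotProduct] at this
    rw [← this]
    simp [ha, colv_apply, mul_comm]
  have hexp : ∀ (f : E n → ℝ) (x : E n), dd e f x = ∑ j, w j * dd (a j) f x := by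
    intro f x
    conv_lhs => rw [he]
    rw [dd_sum_dir]
    simp only [dd_smul_dir]
  have hij : ∀ i j, dd (a i) (dd (a j) V) x0 = (1 : Mt n) i j := by
    intro i j
    rw [conj_entry hV2, hP]
  have hijl : ∀ i j, dd (a i) (dd (a j) (dd e V)) x0 = (Matrix.diagonal l : Mt n) i j := by
    intro i j
    rw [conj_entry hde2, hT]
  have hε : ∀ j, dd (a j) (dd e V) x0 = w j := by
    intro j
    rw [dd_comm hV2 (a j) e, hexp]
    simp only [hij, Matrix.one_apply]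
    simp
  have hεs : ∑ j, w j ^ 2 = 1 := by
    rw [← hp, hexp]
    refine Finset.sum_congr rfl fun j _ => ?_
    rw [hε, sq]
  have hε1 : ∀ j, w j ^ 2 ≤ 1 := by
    intro j
    rw [← hεs]
    exact Finset.single_le_sum (fun i _ => sq_nonneg (w i)) (Finset.mem_univ j)
  have ht : ∀ j, dd (a j) (dd e (dd e V)) x0 = w j * l j := by
    intro j
    rw [dd_comm hde2 (a j) e, hexp]
    simp only [hijl, Matrix.diagonal_apply]
    simp
  have hl : ∀ j, dd (a j) (dd (a j) (dd e V)) x0 = l j := by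
    intro j
    rw [hijl]
    simp
  have h1 : ∀ j, dd (a j) (dd (a j) V) x0 = 1 := by
    intro j
    rw [hij]
    simp
  set A : ℝ := dd e (dd e (dd e V)) x0 with hAdef
  have hz : ∀ (f : E n → ℝ) (x : E n), dd 0 f x = 0 := by
    intro f x
    simp [dd]
  -- lines in the vector variable
  have hlA : ∀ j, l j ≤ A := by
    intro j
    obtain ⟨k1, k2⟩ := line_test hV hmax hm hp (a j) 0 1 (3 * (w j * l j)) (2 * w j) (6 * l j) 2
      (by rw [hz, ht]; ring) (by rw [hz, hε]; ring) (by rw [hz, hz, hl]; ring)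
      (by rw [hz, hz, h1]; ring)
    simp only [inner_zero_right, norm_zero] at k1 k2
    have k3 : w j * l j = A * w j := by
      have : A * (w j * l j) = A * (A * w j) := by linarith
      exact mul_left_cancel₀ hA.ne' this
    rw [k3] at k2
    have k4 : A ^ 2 * w j ^ 2 ≤ A ^ 2 * 1 := mul_le_mul_of_nonneg_left (hε1 j) (sq_nonneg A)
    have k5 : A * l j ≤ A * A := by nlinarith
    exact le_of_mul_le_mul_left k5 hA
  -- radial line
  have hrad : 2 * A * dd x0 (dd e (dd e (dd e V))) x0 = 2 * δ * ‖x0‖ ^ 2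
      + 3 * A ^ 2 * dd x0 (dd e (dd e V)) x0 := by
    obtain ⟨k1, -⟩ := line_test hV hmax hm hp 0 x0 0 (dd x0 (dd e (dd e (dd e V))) x0)
      (dd x0 (dd e (dd e V)) x0) _ _ (by ring) (by ring) rfl rfl
    rw [real_inner_self_eq_norm_sq] at k1
    exact k1
  -- mixed lines
  have hmix : ∀ j, 2 * A * (dd (a j) (dd (a j) (dd e (dd e (dd e V)))) x0
        - 3 * (l j * dd (a j) (dd (a j) (dd e (dd e V))) x0) + 3 / 2 * l j ^ 3)
        - 2 * δ * (1 / c)
        - 3 * A ^ 2 * (dd (a j) (dd (a j) (dd e (dd e V))) x0 - 3 / 2 * l j ^ 2) ≤ 0 := by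
    intro j
    obtain ⟨-, k2⟩ := line_test hV hmax hm hp (a j) (a j) (-(l j) / 2) _ 0
      (dd (a j) (dd (a j) (dd e (dd e (dd e V)))) x0
        - 3 * (l j * dd (a j) (dd (a j) (dd e (dd e V))) x0) + 3 / 2 * l j ^ 3)
      (dd (a j) (dd (a j) (dd e (dd e V))) x0 - 3 / 2 * l j ^ 2) rfl
      (by rw [ht, hε]; ring) (by rw [hl]; ring) (by rw [hl, h1]; ring)
    have hn : ‖a j‖ ^ 2 ≤ 1 / c := by
      rw [EuclideanSpace.real_norm_sq_eq]
      exact hcol j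
    have hn2 : 2 * δ * ‖a j‖ ^ 2 ≤ 2 * δ * (1 / c) :=
      mul_le_mul_of_nonneg_left hn (by positivity)
    have hsq := sq_nonneg (dd (a j) (dd e (dd e (dd e V))) x0 +
      3 * (-(l j) / 2) * dd (a j) (dd e (dd e V)) x0)
    linarith
  have hsum := Finset.sum_nonpos (s := Finset.univ) (fun j _ => hmix j)
  simp only [Finset.sum_sub_distrib, Finset.sum_add_distrib, ← Finset.mul_sum, Finset.sum_const,
    Finset.card_univ, Fintype.card_fin, nsmul_eq_mul] at hsum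
  have hcube : ∑ j, l j ^ 3 ≤ A * ∑ j, l j ^ 2 := by
    rw [Finset.mul_sum]
    refine Finset.sum_le_sum fun j _ => ?_
    have := mul_le_mul_of_nonneg_right (hlA j) (sq_nonneg (l j))
    nlinarith [this]
  have hcube2 : A * ∑ j, l j ^ 3 ≤ A * (A * ∑ j, l j ^ 2) :=
    mul_le_mul_of_nonneg_left hcube hA.le
  have hS2 : 0 ≤ ∑ j, l j ^ 2 := Finset.sum_nonneg fun j _ => sq_nonneg _
  have hS2' : 0 ≤ A ^ 2 * ∑ j, l j ^ 2 := mul_nonneg (sq_nonneg _) hS2
  have hW : 0 ≤ A ^ 2 * (‖e‖ ^ 2 + dd e (dd e F) x0) := mul_nonneg (sq_nonneg _) hcvx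
  have hκ' : A * dd e (dd e (dd e F)) x0 ≤ A * κ := mul_le_mul_of_nonneg_left hκ hA.le
  have hx : 0 ≤ δ * ‖x0‖ ^ 2 := by positivity
  have ep : eul (dd e (dd e V)) x0 = dd x0 (dd e (dd e V)) x0 := rfl
  have eA : eul (dd e (dd e (dd e V))) x0 = dd x0 (dd e (dd e (dd e V))) x0 := rfl
  rw [ep, hp] at idA
  rw [eA] at idB
  have idA' : ∑ j, dd (a j) (dd (a j) (dd e (dd e V))) x0 = _ := idA
  have idB' : ∑ j, dd (a j) (dd (a j) (dd e (dd e (dd e V)))) x0 =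
    2 * A + dd x0 (dd e (dd e (dd e V))) x0
      + 3 * ∑ j, l j * dd (a j) (dd (a j) (dd e (dd e V))) x0 - 2 * ∑ j, l j ^ 3
      - dd e (dd e (dd e F)) x0 := idB
  rw [idB', idA'] at hsum
  generalize dd x0 (dd e (dd e V)) x0 = Ep at *
  generalize dd x0 (dd e (dd e (dd e V))) x0 = EA at *
  generalize ∑ j, l j * dd (a j) (dd (a j) (dd e (dd e V))) x0 = SLU at *
  generalize ∑ j, l j ^ 3 = S3 at *
  generalize ∑ j, l j ^ 2 = S2 at *
  generalize dd e (dd e (dd e F)) x0 = F3 at *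
  generalize dd e (dd e F) x0 = F2 at *
  clear_value A
  have e1 : 2 * A * (2 * A + EA + 3 * SLU - 2 * S3 - F3 - 3 * SLU + 3 / 2 * S3) -
      2 * δ * (↑n * (1 / c)) -
      3 * A ^ 2 * (1 + Ep + S2 - (‖e‖ ^ 2 + F2) - 3 / 2 * S2) =
      A ^ 2 + (2 * A * EA - 3 * A ^ 2 * Ep) - A * S3 + 3 / 2 * (A ^ 2 * S2)
        + 3 * (A ^ 2 * (‖e‖ ^ 2 + F2)) - 2 * (A * F3) - 2 * δ * (↑n * (1 / c)) := by ring
  rw [e1] at hsum
  have e2 : A * (A * S2) = A ^ 2 * S2 := by ring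
  rw [e2] at hcube2
  have e3 : 2 * A * κ = 2 * (A * κ) := by ring
  rw [e3]
  linarith

end CM
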