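import Pool.Agent.Helper85.MM.StmtsAP3

namespace CM

variable {n : ℕ}

lemma dd_contDiff {k : ℕ} {f : E n → ℝ} (hf : ContDiff ℝ (k + 1 : ℕ) f) (a : E n) :
    ContDiff ℝ k (dd a f) := by
  unfold dd
  have h : ContDiff ℝ k (fun x => fderiv ℝ f x) := by
    have := hf.fderiv_right (m := k) (by norm_cast)
    exact this
  exact h.clm_apply contDiff_const

lemma dd_add_dir (a b : E n) (f : E n → ℝ) (x : E n) : dd (a + b) f x = dd a f x + dd b f x := by
  simp [dd]

lemma dd_smul_dir (c : ℝ) (a : E n) (f : E n → ℝ) (x : E n) : dd (c • a) f x = c * dd a f x := by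
  simp [dd]

lemma dd_neg_dir (a : E n) (f : E n → ℝ) (x : E n) : dd (-a) f x = - dd a f x := by
  simp [dd]

lemma dd_sum_dir {ι : Type*} (s : Finset ι) (a : ι → E n) (f : E n → ℝ) (x : E n) :
    dd (∑ i ∈ s, a i) f x = ∑ i ∈ s, dd (a i) f x := by
  simp [dd]

lemma dd_fadd {f g : E n → ℝ} (hf : Differentiable ℝ f) (hg : Differentiable ℝ g) (a x : E n) :
    dd a (fun y => f y + g y) x = dd a f x + dd a g x := by
  unfold dd
  rw [fderiv_fun_add (hf x) (hg x)]
  rfl

lemma dd_fconst_mul {f : E n → ℝ} (hf : Differentiable ℝ f) (c : ℝ) (a x : E n) :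
    dd a (fun y => c * f y) x = c * dd a f x := by
  unfold dd
  rw [fderiv_const_mul (hf x)]
  rfl

lemma dd_fsum {ι : Type*} (s : Finset ι) {f : ι → E n → ℝ} (hf : ∀ i, Differentiable ℝ (f i))
    (a x : E n) : dd a (fun y => ∑ i ∈ s, f i y) x = ∑ i ∈ s, dd a (f i) x := by
  unfold dd
  rw [fderiv_fun_sum (fun i _ => hf i x)]
  simp

lemma hasDerivAt_line {f : E n → ℝ} (hf : Differentiable ℝ f) (x a : E n) (t : ℝ) :
    HasDerivAt (fun s : ℝ => f (x + s • a)) (dd a f (x + t • a)) t := by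
  have h1 : HasDerivAt (fun s : ℝ => x + s • a) a t := by
    simpa using ((hasDerivAt_id t).smul_const a).const_add x
  exact (hf (x + t • a)).hasFDerivAt.comp_hasDerivAt t h1

lemma dd_comm {f : E n → ℝ} (hf : ContDiff ℝ 2 f) (a b : E n) :
    dd a (dd b f) = dd b (dd a f) := by
  have key : ∀ (u v : E n) (x : E n), dd u (dd v f) x = fderiv ℝ (fderiv ℝ f) x u v := by
    intro u v x
    have hd : DifferentiableAt ℝ (fderiv ℝ f) x := by
      have h : ContDiff ℝ 1 (fderiv ℝ f) := hf.fderiv_right (m := 1) (by norm_num)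
      exact h.differentiable (by norm_num) x
    unfold dd
    rw [fderiv_clm_apply hd (by fun_prop)]
    simp
  funext x
  rw [key, key]
  have hs := (hf.contDiffAt (x := x)).isSymmSndFDerivAt (by simp)
  exact hs a b

lemma pd_eq_dd (i : Fin n) (f : E n → ℝ) : pd i f = dd (EuclideanSpace.single i (1 : ℝ)) f := rfl

lemma single_sum (a : E n) : a = ∑ i, a i • EuclideanSpace.single i (1 : ℝ) := by
  ext j
  simp [Finset.sum_apply, Pi.single_apply]

lemma dd_eq_sum (a : E n) (f : E n → ℝ) (x : E n) : dd a f x = ∑ i, a i * pd i f x := by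
  conv_lhs => rw [single_sum a]
  rw [dd_sum_dir]
  simp [dd_smul_dir, pd_eq_dd]

lemma pd_contDiff {k : ℕ} {f : E n → ℝ} (hf : ContDiff ℝ (k + 1 : ℕ) f) (i : Fin n) :
    ContDiff ℝ k (pd i f) := dd_contDiff hf _

lemma dd_dd_eq_sum {f : E n → ℝ} (hf : ContDiff ℝ 2 f) (a b x : E n) :
    dd a (dd b f) x = ∑ i, ∑ j, a i * hess f x i j * b j := by
  have hp : ∀ j, Differentiable ℝ (pd j f) := fun j =>
    (pd_contDiff (k := 1) (f := f) (by exact_mod_cast hf) j).differentiable (by norm_num)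
  have hb : dd b f = fun y => ∑ j, b j * pd j f y := by
    funext y
    exact dd_eq_sum b f y
  rw [hb, dd_fsum _ (fun j => (hp j).const_mul (b j)), Finset.sum_comm]
  refine Finset.sum_congr rfl fun j _ => ?_
  rw [dd_fconst_mul (hp j), dd_eq_sum, Finset.mul_sum]
  refine Finset.sum_congr rfl fun i _ => ?_
  simp only [hess, Matrix.of_apply]
  ring

lemma dd_eul {f : E n → ℝ} (hf : ContDiff ℝ 2 f) (e x : E n) :
    dd e (eul f) x = dd e f x + eul (dd e f) x := by
  have hd : DifferentiableAt ℝ (fderiv ℝ f) x := by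
    have h : ContDiff ℝ 1 (fderiv ℝ f) := hf.fderiv_right (m := 1) (by norm_num)
    exact h.differentiable (by norm_num) x
  have h1 : dd e (eul f) x = fderiv ℝ (fderiv ℝ f) x e x + fderiv ℝ f x e := by
    unfold dd eul
    rw [fderiv_clm_apply hd (by fun_prop)]
    simp [add_comm]
  have h2 : eul (dd e f) x = fderiv ℝ (fderiv ℝ f) x x e := by
    unfold dd eul
    rw [fderiv_clm_apply hd (by fun_prop)]
    simp
  have hs := (hf.contDiffAt (x := x)).isSymmSndFDerivAt (by simp)
  rw [h1, h2, hs e x]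
  unfold dd
  ring

lemma eul_contDiff {k : ℕ} {f : E n → ℝ} (hf : ContDiff ℝ (k + 1 : ℕ) f) :
    ContDiff ℝ k (eul f) := by
  unfold eul
  have h : ContDiff ℝ k (fun x => fderiv ℝ f x) := by
    have := hf.fderiv_right (m := k) (by norm_cast)
    exact this
  exact h.clm_apply contDiff_id

end CM
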