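import Pool.Agent.Helper85.MM.StmtsAP3

namespace CM

theorem st_SDT : ST_SDT := by
  intro f f1 f2 hf hf1 hmax
  have h0 : f1 0 = 0 := by
    have : IsLocalMax f 0 := Filter.Eventually.of_forall hmax
    exact this.hasDerivAt_eq_zero (hf 0)
  refine ⟨h0, ?_⟩
  by_contra hlt
  push Not at hlt
  have hs := hf1.tendsto_slope_zero_right
  have hpos : ∀ᶠ t in nhdsWithin (0 : ℝ) (Set.Ioi 0), 0 < t⁻¹ • (f1 (0 + t) - f1 0) :=
    hs.eventually (lt_mem_nhds hlt)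
  obtain ⟨ε, hε, hball⟩ := (mem_nhdsGT_iff_exists_Ioo_subset).1 hpos
  have hε0 : (0 : ℝ) < ε := hε
  have hpos' : ∀ t ∈ Set.Ioo (0 : ℝ) ε, 0 < f1 t := by
    intro t ht
    have h := hball ht
    simp only [Set.mem_ofPred_eq, zero_add, h0, sub_zero, smul_eq_mul] at h
    exact (pos_iff_pos_of_mul_pos h).1 (inv_pos.2 ht.1)
  obtain ⟨c, hc, hcd⟩ := exists_hasDerivAt_eq_slope f f1 (half_pos hε0)
    (fun t _ => (hf t).continuousAt.continuousWithinAt) (fun t _ => hf t)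
  have hcpos : 0 < f1 c := hpos' c ⟨hc.1, lt_trans hc.2 (half_lt_self hε0)⟩
  rw [hcd, sub_zero] at hcpos
  have := hmax (ε / 2)
  have h2 : 0 < f (ε / 2) - f 0 := by
    by_contra hneg
    push Not at hneg
    have : (f (ε / 2) - f 0) / (ε / 2) ≤ 0 :=
      div_nonpos_of_nonpos_of_nonneg hneg (half_pos hε0).le
    linarith
  linarith

theorem st_PMX : ST_PMX := by
  intro n R B δ hn hδ hc hB
  obtain ⟨e1, he1⟩ : ∃ e : E n, ‖e‖ = 1 :=
    ⟨EuclideanSpace.single ⟨0, hn⟩ 1, by simp⟩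
  set r : ℝ := Real.sqrt ((|B - R 0 e1| + 1) / δ) with hr
  have hr2 : δ * r ^ 2 = |B - R 0 e1| + 1 := by
    rw [hr, Real.sq_sqrt (by positivity)]
    field_simp
  have hr0 : 0 ≤ r := Real.sqrt_nonneg _
  set S : Set (E n × E n) := Metric.closedBall 0 r ×ˢ Metric.sphere 0 1 with hS
  have hcomp : IsCompact S := (isCompact_closedBall 0 r).prod (isCompact_sphere 0 1)
  have hne : S.Nonempty := ⟨(0, e1), by simp [hS, hr0, he1]⟩
  have hcont : ContinuousOn (fun p : E n × E n => R p.1 p.2 - δ * ‖p.1‖ ^ 2) S := by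
    refine (hc.mono ?_).sub (by fun_prop)
    intro p hp
    exact ⟨trivial, hp.2⟩
  obtain ⟨p, hpS, hp⟩ := hcomp.exists_isMaxOn hne hcont
  have hp1 : ‖p.2‖ = 1 := by simpa using hpS.2
  refine ⟨p.1, p.2, hp1, fun x e he => ?_⟩
  by_cases hx : ‖x‖ ≤ r
  · exact hp (show (x, e) ∈ S from ⟨by simpa using hx, by simpa using he⟩)
  · push Not at hx
    have h0 := hp (show ((0 : E n), e1) ∈ S from ⟨by simp [hr0], by simpa using he1⟩)
    simp only [Set.mem_ofPred_eq] at h0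
    have h1 : R x e ≤ B := hB x e he
    have h2 : δ * r ^ 2 ≤ δ * ‖x‖ ^ 2 := by
      have : r ^ 2 ≤ ‖x‖ ^ 2 := by nlinarith
      exact mul_le_mul_of_nonneg_left this hδ.le
    have h3 : B - R 0 e1 ≤ |B - R 0 e1| := le_abs_self _
    have h4 : R 0 e1 - δ * ‖(0 : E n)‖ ^ 2 = R 0 e1 := by simp
    have h5 : R 0 e1 ≤ R p.1 p.2 - δ * ‖p.1‖ ^ 2 := by
      rw [← h4]; exact h0
    linarith

end CM
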