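import Pool.Agent.Helper85.MM.Pid
import Pool.Agent.Helper85.MM.Max

namespace CM

variable {n : ℕ}

lemma dd_add_smul (e a : E n) (u : ℝ) (f : E n → ℝ) :
    dd (e + u • a) f = fun x => dd e f x + u * dd a f x := by
  funext x
  rw [dd_add_dir, dd_smul_dir]

lemma dd_lin {f g : E n → ℝ} (hf : Differentiable ℝ f) (hg : Differentiable ℝ g) (u : ℝ)
    (b x : E n) : dd b (fun y => f y + u * g y) x = dd b f x + u * dd b g x := by
  rw [dd_fadd hf (hg.const_mul u), dd_fconst_mul hg]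

lemma p_expand {V : E n → ℝ} (hV : ContDiff ℝ 2 V) (e a : E n) (u : ℝ) (X : E n) :
    dd (e + u • a) (dd (e + u • a) V) X =
      dd e (dd e V) X + 2 * u * dd a (dd e V) X + u ^ 2 * dd a (dd a V) X := by
  have h1 : ∀ b : E n, Differentiable ℝ (dd b V) := fun b =>
    (dd_contDiff (k := 1) (by exact_mod_cast hV) b).differentiable (by norm_num)
  rw [dd_add_smul e a u V, dd_add_smul]
  simp only []
  rw [dd_lin (h1 e) (h1 a), dd_lin (h1 e) (h1 a), dd_comm hV e a]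
  ring

lemma A_expand {V : E n → ℝ} (hV : ContDiff ℝ 3 V) (e a : E n) (u : ℝ) (X : E n) :
    dd (e + u • a) (dd (e + u • a) (dd (e + u • a) V)) X =
      dd e (dd e (dd e V)) X + 3 * u * dd a (dd e (dd e V)) X
        + 3 * u ^ 2 * dd a (dd a (dd e V)) X + u ^ 3 * dd a (dd a (dd a V)) X := by
  have hV3 : ContDiff ℝ (2 + 1 : ℕ) V := by exact_mod_cast hV
  have hV2 : ContDiff ℝ 2 V := hV.of_le (by norm_num)
  have hb : ∀ b : E n, ContDiff ℝ (1 + 1 : ℕ) (dd b V) := fun b => dd_contDiff hV3 b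
  have hb2 : ∀ b : E n, ContDiff ℝ 2 (dd b V) := fun b => by exact_mod_cast hb b
  have h1 : ∀ b : E n, Differentiable ℝ (dd b V) := fun b =>
    (hb b).differentiable (by norm_num)
  have h2 : ∀ b c : E n, Differentiable ℝ (dd b (dd c V)) := fun b c =>
    (dd_contDiff (hb c) b).differentiable (by norm_num)
  have e1 : dd (e + u • a) (dd (e + u • a) V) = fun x =>
      dd e (dd e V) x + 2 * u * dd a (dd e V) x + u ^ 2 * dd a (dd a V) x := by
    funext x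
    exact p_expand hV2 e a u x
  rw [e1, dd_add_smul]
  have e2 : ∀ b : E n, dd b (fun x =>
      dd e (dd e V) x + 2 * u * dd a (dd e V) x + u ^ 2 * dd a (dd a V) x) X =
      dd b (dd e (dd e V)) X + 2 * u * dd b (dd a (dd e V)) X + u ^ 2 * dd b (dd a (dd a V)) X := by
    intro b
    rw [dd_lin (f := fun x => dd e (dd e V) x + 2 * u * dd a (dd e V) x) (g := dd a (dd a V))
      ((h2 e e).add ((h2 a e).const_mul _)) (h2 a a), dd_lin (h2 e e) (h2 a e)]
  simp only []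
  rw [e2 e, e2 a, dd_comm (hb2 e) e a, show dd e (dd a (dd a V)) = dd a (dd a (dd e V)) by
    rw [dd_comm (hb2 a) e a, dd_comm hV2 e a]]
  ring

/-- A cubic polynomial in `c t` with coefficients moving along a line. -/
lemma cubic_line {f0 f1 f2 f3 : E n → ℝ} (h0 : ContDiff ℝ 2 f0) (h1 : ContDiff ℝ 2 f1)
    (h2 : ContDiff ℝ 2 f2) (h3 : ContDiff ℝ 2 f3) (x0 a : E n) (c : ℝ) :
    (∀ t, HasDerivAt (fun t : ℝ => f0 (x0 + t • a) + 3 * (c * t) * f1 (x0 + t • a)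
        + 3 * (c * t) ^ 2 * f2 (x0 + t • a) + (c * t) ^ 3 * f3 (x0 + t • a))
      (dd a f0 (x0 + t • a) + (3 * c * f1 (x0 + t • a) + 3 * (c * t) * dd a f1 (x0 + t • a))
        + (3 * (2 * (c * t) * c) * f2 (x0 + t • a) + 3 * (c * t) ^ 2 * dd a f2 (x0 + t • a))
        + (3 * (c * t) ^ 2 * c * f3 (x0 + t • a) + (c * t) ^ 3 * dd a f3 (x0 + t • a))) t) ∧
    HasDerivAt (fun t : ℝ =>
        dd a f0 (x0 + t • a) + (3 * c * f1 (x0 + t • a) + 3 * (c * t) * dd a f1 (x0 + t • a))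
        + (3 * (2 * (c * t) * c) * f2 (x0 + t • a) + 3 * (c * t) ^ 2 * dd a f2 (x0 + t • a))
        + (3 * (c * t) ^ 2 * c * f3 (x0 + t • a) + (c * t) ^ 3 * dd a f3 (x0 + t • a)))
      (dd a (dd a f0) x0 + 6 * c * dd a f1 x0 + 6 * c ^ 2 * f2 x0) 0 := by
  have hd : ∀ {f : E n → ℝ}, ContDiff ℝ 2 f → Differentiable ℝ f := fun hf =>
    hf.differentiable (by norm_num)
  have hdd : ∀ {f : E n → ℝ}, ContDiff ℝ 2 f → Differentiable ℝ (dd a f) := fun hf =>
    (dd_contDiff (k := 1) (by exact_mod_cast hf) a).differentiable (by norm_num)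
  have hct : ∀ t, HasDerivAt (fun t : ℝ => c * t) c t := fun t => by
    simpa using (hasDerivAt_id t).const_mul c
  constructor
  · intro t
    have a0 := hasDerivAt_line (hd h0) x0 a t
    have a1 := ((hct t).const_mul 3).mul (hasDerivAt_line (hd h1) x0 a t)
    have a2 := (((hct t).pow 2).const_mul 3).mul (hasDerivAt_line (hd h2) x0 a t)
    have a3 := ((hct t).pow 3).mul (hasDerivAt_line (hd h3) x0 a t)
    have := ((a0.add a1).add a2).add a3
    refine this.congr_deriv ?_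
    simp only [Nat.cast_ofNat, Pi.pow_apply, Nat.reduceSub, pow_one]
  · have b0 := hasDerivAt_line (hdd h0) x0 a 0
    have b1 := ((hasDerivAt_line (hd h1) x0 a 0).const_mul (3 * c)).add
      (((hct 0).const_mul 3).mul (hasDerivAt_line (hdd h1) x0 a 0))
    have b2 := (((((hct 0).const_mul 2).mul_const c).const_mul 3).mul
      (hasDerivAt_line (hd h2) x0 a 0)).add
      ((((hct 0).pow 2).const_mul 3).mul (hasDerivAt_line (hdd h2) x0 a 0))
    have b3 := (((((hct 0).pow 2).const_mul 3).mul_const c).mul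
      (hasDerivAt_line (hd h3) x0 a 0)).add
      (((hct 0).pow 3).mul (hasDerivAt_line (hdd h3) x0 a 0))
    have := ((b0.add b1).add b2).add b3
    refine this.congr_deriv ?_
    simp only [zero_smul, add_zero, mul_zero, Nat.cast_ofNat, Pi.pow_apply, Nat.reduceSub, pow_one]
    ring

/-- A quadratic polynomial in `c t` with coefficients moving along a line. -/
lemma quad_line {f0 f1 f2 : E n → ℝ} (h0 : ContDiff ℝ 2 f0) (h1 : ContDiff ℝ 2 f1)
    (h2 : ContDiff ℝ 2 f2) (x0 a : E n) (c : ℝ) :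
    (∀ t, HasDerivAt (fun t : ℝ => f0 (x0 + t • a) + 2 * (c * t) * f1 (x0 + t • a)
        + (c * t) ^ 2 * f2 (x0 + t • a))
      (dd a f0 (x0 + t • a) + (2 * c * f1 (x0 + t • a) + 2 * (c * t) * dd a f1 (x0 + t • a))
        + (2 * (c * t) * c * f2 (x0 + t • a) + (c * t) ^ 2 * dd a f2 (x0 + t • a))) t) ∧
    HasDerivAt (fun t : ℝ =>
        dd a f0 (x0 + t • a) + (2 * c * f1 (x0 + t • a) + 2 * (c * t) * dd a f1 (x0 + t • a))
        + (2 * (c * t) * c * f2 (x0 + t • a) + (c * t) ^ 2 * dd a f2 (x0 + t • a)))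
      (dd a (dd a f0) x0 + 4 * c * dd a f1 x0 + 2 * c ^ 2 * f2 x0) 0 := by
  have hd : ∀ {f : E n → ℝ}, ContDiff ℝ 2 f → Differentiable ℝ f := fun hf =>
    hf.differentiable (by norm_num)
  have hdd : ∀ {f : E n → ℝ}, ContDiff ℝ 2 f → Differentiable ℝ (dd a f) := fun hf =>
    (dd_contDiff (k := 1) (by exact_mod_cast hf) a).differentiable (by norm_num)
  have hct : ∀ t, HasDerivAt (fun t : ℝ => c * t) c t := fun t => by
    simpa using (hasDerivAt_id t).const_mul c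
  constructor
  · intro t
    have a0 := hasDerivAt_line (hd h0) x0 a t
    have a1 := ((hct t).const_mul 2).mul (hasDerivAt_line (hd h1) x0 a t)
    have a2 := ((hct t).pow 2).mul (hasDerivAt_line (hd h2) x0 a t)
    have := (a0.add a1).add a2
    refine this.congr_deriv ?_
    simp only [Nat.cast_ofNat, Pi.pow_apply, Nat.reduceSub, pow_one]
  · have b0 := hasDerivAt_line (hdd h0) x0 a 0
    have b1 := ((hasDerivAt_line (hd h1) x0 a 0).const_mul (2 * c)).add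
      (((hct 0).const_mul 2).mul (hasDerivAt_line (hdd h1) x0 a 0))
    have b2 := ((((hct 0).const_mul 2).mul_const c).mul
      (hasDerivAt_line (hd h2) x0 a 0)).add
      (((hct 0).pow 2).mul (hasDerivAt_line (hdd h2) x0 a 0))
    have := (b0.add b1).add b2
    refine this.congr_deriv ?_
    simp only [zero_smul, add_zero, mul_zero, Nat.cast_ofNat, Pi.pow_apply, Nat.reduceSub, pow_one]
    ring

/-- The function `δ |x|² + m0` on a line. -/
lemma m_line (m0 δ : ℝ) (x0 b : E n) :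
    (∀ t, HasDerivAt (fun t : ℝ => m0 + δ * ‖x0 + t • b‖ ^ 2)
      (δ * (2 * inner ℝ x0 b + 2 * t * ‖b‖ ^ 2)) t) ∧
    HasDerivAt (fun t : ℝ => δ * (2 * inner ℝ x0 b + 2 * t * ‖b‖ ^ 2)) (2 * δ * ‖b‖ ^ 2) 0 := by
  constructor
  · intro t
    have hfun : (fun t : ℝ => m0 + δ * ‖x0 + t • b‖ ^ 2) =
        fun t : ℝ => m0 + δ * (‖x0‖ ^ 2 + 2 * inner ℝ x0 b * t + ‖b‖ ^ 2 * t ^ 2) := by
      funext s
      rw [norm_add_sq_real, norm_smul, inner_smul_right, Real.norm_eq_abs, mul_pow, sq_abs]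
      ring
    rw [hfun]
    have h1 := (((hasDerivAt_id t).const_mul (2 * inner ℝ x0 b)).const_add (‖x0‖ ^ 2)).add
      (((hasDerivAt_id t).pow 2).const_mul (‖b‖ ^ 2))
    have h2 := (h1.const_mul δ).const_add m0
    refine h2.congr_deriv ?_
    simp only [Nat.cast_ofNat, Nat.reduceSub, pow_one, id]
    ring
  · have h1 := (((hasDerivAt_id (0 : ℝ)).const_mul 2).mul_const (‖b‖ ^ 2)).const_add
      (2 * inner ℝ x0 b)
    have h2 := h1.const_mul δ
    refine h2.congr_deriv ?_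
    ring

/-- First and second order conditions at a maximum `0` of `f ^ 2 - m * p ^ 3`. -/
lemma phi_test (f f1 p p1 m m1 : ℝ → ℝ) (f2 p2 m2 : ℝ) (hf : ∀ t, HasDerivAt f (f1 t) t)
    (hf1 : HasDerivAt f1 f2 0) (hp : ∀ t, HasDerivAt p (p1 t) t) (hp1 : HasDerivAt p1 p2 0)
    (hm : ∀ t, HasDerivAt m (m1 t) t) (hm1 : HasDerivAt m1 m2 0)
    (hle : ∀ t, f t ^ 2 - m t * p t ^ 3 ≤ 0) (h0 : f 0 ^ 2 = m 0) (hp0 : p 0 = 1) :
    2 * f 0 * f1 0 = m1 0 + 3 * f 0 ^ 2 * p1 0 ∧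
    2 * f1 0 ^ 2 + 2 * f 0 * f2 - m2 - 6 * m1 0 * p1 0 - 6 * f 0 ^ 2 * p1 0 ^ 2
      - 3 * f 0 ^ 2 * p2 ≤ 0 := by
  have H := st_SDT (fun t => f t ^ 2 - m t * p t ^ 3)
    (fun t => 2 * f t * f1 t - (m1 t * p t ^ 3 + m t * (3 * p t ^ 2 * p1 t)))
    (2 * f1 0 * f1 0 + 2 * f 0 * f2 - ((m2 * p 0 ^ 3 + m1 0 * (3 * p 0 ^ 2 * p1 0)) +
      (m1 0 * (3 * p 0 ^ 2 * p1 0) + m 0 * (3 * (2 * p 0 * p1 0) * p1 0 + 3 * p 0 ^ 2 * p2))))
    ?_ ?_ ?_
  · obtain ⟨H1, H2⟩ := H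
    simp only [hp0, ← h0] at H1 H2
    constructor
    · linarith
    · nlinarith [H2]
  · intro t
    have a1 := ((hf t).pow 2).sub ((hm t).mul ((hp t).pow 3))
    refine a1.congr_deriv ?_
    simp only [Nat.cast_ofNat, Pi.pow_apply, Nat.reduceSub, pow_one]
  · have a1 := (((hf 0).const_mul 2).mul hf1).sub ((hm1.mul ((hp 0).pow 3)).add
      ((hm 0).mul ((((hp 0).pow 2).const_mul 3).mul hp1)))
    refine a1.congr_deriv ?_
    simp only [Nat.cast_ofNat, Pi.pow_apply, Pi.mul_apply, Nat.reduceSub, pow_one]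
  · intro t
    have := hle t
    simp only [hp0, ← h0]
    linarith

/-- The line test. -/
lemma line_test {V : E n → ℝ} (hV : ContDiff ℝ 5 V) {m0 δ : ℝ} {x0 e : E n}
    (hmax : ∀ x e', dd e' (dd e' (dd e' V)) x ^ 2 - (m0 + δ * ‖x‖ ^ 2) * dd e' (dd e' V) x ^ 3 ≤ 0)
    (heq : dd e (dd e (dd e V)) x0 ^ 2 = m0 + δ * ‖x0‖ ^ 2) (hp : dd e (dd e V) x0 = 1)
    (a b : E n) (c : ℝ) (f1 p1 f2 p2 : ℝ)
    (hf1 : f1 = dd b (dd e (dd e (dd e V))) x0 + 3 * c * dd a (dd e (dd e V)) x0)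
    (hp1 : p1 = dd b (dd e (dd e V)) x0 + 2 * c * dd a (dd e V) x0)
    (hf2 : f2 = dd b (dd b (dd e (dd e (dd e V)))) x0 + 6 * c * dd b (dd a (dd e (dd e V))) x0
      + 6 * c ^ 2 * dd a (dd a (dd e V)) x0)
    (hp2 : p2 = dd b (dd b (dd e (dd e V))) x0 + 4 * c * dd b (dd a (dd e V)) x0
      + 2 * c ^ 2 * dd a (dd a V) x0) :
    2 * dd e (dd e (dd e V)) x0 * f1 = 2 * δ * inner ℝ x0 b
      + 3 * dd e (dd e (dd e V)) x0 ^ 2 * p1 ∧
    2 * f1 ^ 2 + 2 * dd e (dd e (dd e V)) x0 * f2 - 2 * δ * ‖b‖ ^ 2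
      - 12 * δ * inner ℝ x0 b * p1 - 6 * dd e (dd e (dd e V)) x0 ^ 2 * p1 ^ 2
      - 3 * dd e (dd e (dd e V)) x0 ^ 2 * p2 ≤ 0 := by
  have hV5 : ContDiff ℝ (4 + 1 : ℕ) V := by exact_mod_cast hV
  have hd1 : ∀ u : E n, ContDiff ℝ (3 + 1 : ℕ) (dd u V) := fun u => dd_contDiff hV5 u
  have hd2 : ∀ u v : E n, ContDiff ℝ (2 + 1 : ℕ) (dd u (dd v V)) := fun u v =>
    dd_contDiff (hd1 v) u
  have hd3 : ∀ u v w : E n, ContDiff ℝ 2 (dd u (dd v (dd w V))) := fun u v w => by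
    have := dd_contDiff (hd2 v w) u
    exact_mod_cast this
  have hd2' : ∀ u v : E n, ContDiff ℝ 2 (dd u (dd v V)) := fun u v =>
    (hd2 u v).of_le (by norm_cast)
  obtain ⟨q1, q2⟩ := cubic_line (hd3 e e e) (hd3 a e e) (hd3 a a e) (hd3 a a a) x0 b c
  obtain ⟨r1, r2⟩ := quad_line (hd2' e e) (hd2' a e) (hd2' a a) x0 b c
  obtain ⟨s1, s2⟩ := m_line m0 δ x0 b
  have key := phi_test _ _ _ _ _ _ _ _ _ q1 q2 r1 r2 s1 s2 ?_ ?_ ?_
  · simp only [zero_smul, add_zero, mul_zero, zero_mul, ne_eq, OfNat.ofNat_ne_zero,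
      not_false_eq_true, zero_pow] at key
    obtain ⟨k1, k2⟩ := key
    subst hf1 hp1 hf2 hp2
    constructor
    · linarith
    · linarith
  · intro t
    have hA := A_expand (hV.of_le (by norm_num)) e a (c * t) (x0 + t • b)
    have hP := p_expand (hV.of_le (by norm_num)) e a (c * t) (x0 + t • b)
    have := hmax (x0 + t • b) (e + (c * t) • a)
    rw [hA, hP] at this
    exact this
  · simp [heq]
  · simp [hp]

end CM
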