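import Pool.Agent.Helper85.MM.DD

namespace CM

variable {n : ℕ}

lemma colv_apply (P : Mt n) (i j : Fin n) : colv P j i = P i j := rfl

lemma conj_entry {f : E n → ℝ} (hf : ContDiff ℝ 2 f) (P : Mt n) (x : E n) (i j : Fin n) :
    dd (colv P i) (dd (colv P j) f) x = (P.transpose * hess f x * P) i j := by
  rw [dd_dd_eq_sum hf, Matrix.mul_apply]
  rw [Finset.sum_comm]
  refine Finset.sum_congr rfl fun k _ => ?_
  rw [Matrix.mul_apply, Finset.sum_mul]
  refine Finset.sum_congr rfl fun m _ => ?_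
  simp [colv_apply, Matrix.transpose_apply]

lemma dd_qn (e : E n) : dd e (qn (n := n)) = fun x => inner ℝ x e := by
  funext x
  unfold dd
  have h : HasFDerivAt (qn (n := n)) ((2 : ℝ)⁻¹ • (2 • innerSL ℝ x)) x := by
    have h1 := (hasStrictFDerivAt_norm_sq x).hasFDerivAt
    have h2 := h1.const_mul (2 : ℝ)⁻¹
    refine h2.congr_of_eventuallyEq (Filter.Eventually.of_forall fun y => ?_)
    simp only [qn]
    ring
  rw [h.fderiv]
  simp

lemma dd_dd_qn (e : E n) : dd e (dd e (qn (n := n))) = fun _ => ‖e‖ ^ 2 := by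
  funext x
  rw [dd_qn]
  unfold dd
  have h : HasFDerivAt (fun y : E n => inner ℝ y e) (innerSL ℝ e) x := by
    have h1 := (innerSL ℝ e).hasFDerivAt (x := x)
    refine h1.congr_of_eventuallyEq (Filter.Eventually.of_forall fun y => ?_)
    simp [real_inner_comm]
  rw [h.fderiv]
  simp

lemma qn_contDiff {k : ℕ} : ContDiff ℝ k (qn (n := n)) := by
  unfold qn
  exact (contDiff_norm_sq ℝ).div_const 2

/-- The two pointwise identities. -/
lemma pid (hL : ST_LDC) {V F : E n → ℝ} (hV : ContDiff ℝ 5 V) (hF : ContDiff ℝ 5 F)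
    (hpos : ∀ x, 0 < (hess V x).det) (heq : ∀ x, WW V x = qn x + F x) (x0 e : E n) (P : Mt n)
    (l : Fin n → ℝ) (hP : P.transpose * hess V x0 * P = 1)
    (hT : P.transpose * hess (dd e V) x0 * P = Matrix.diagonal l) :
    (∑ j, dd (colv P j) (dd (colv P j) (dd e (dd e V))) x0 =
      dd e (dd e V) x0 + eul (dd e (dd e V)) x0 + ∑ j, l j ^ 2
        - (‖e‖ ^ 2 + dd e (dd e F) x0)) ∧
    (∑ j, dd (colv P j) (dd (colv P j) (dd e (dd e (dd e V)))) x0 =
      2 * dd e (dd e (dd e V)) x0 + eul (dd e (dd e (dd e V))) x0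
        + 3 * ∑ j, l j * dd (colv P j) (dd (colv P j) (dd e (dd e V))) x0
        - 2 * ∑ j, l j ^ 3 - dd e (dd e (dd e F)) x0) := by
  -- smoothness
  have hV5 : ContDiff ℝ (4 + 1 : ℕ) V := by exact_mod_cast hV
  have hde : ContDiff ℝ (3 + 1 : ℕ) (dd e V) := dd_contDiff hV5 e
  have hdee : ContDiff ℝ (2 + 1 : ℕ) (dd e (dd e V)) := dd_contDiff hde e
  have hdeee : ContDiff ℝ (1 + 1 : ℕ) (dd e (dd e (dd e V))) := dd_contDiff hdee e
  have hda : ∀ a : E n, ContDiff ℝ (3 + 1 : ℕ) (dd a V) := fun a => dd_contDiff hV5 a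
  have hdab : ∀ a b : E n, ContDiff ℝ (2 + 1 : ℕ) (dd a (dd b V)) := fun a b =>
    dd_contDiff (hda b) a
  have h2 : ∀ {k : ℕ} {f : E n → ℝ}, ContDiff ℝ (k + 2 : ℕ) f → ContDiff ℝ 2 f := by
    intro k f hf
    exact hf.of_le (by push_cast; exact le_add_self)
  have hV2 : ContDiff ℝ 2 V := h2 (k := 3) hV5
  have hde2 : ContDiff ℝ 2 (dd e V) := h2 (k := 2) hde
  have hdee2 : ContDiff ℝ 2 (dd e (dd e V)) := h2 (k := 1) hdee
  have hdeee2 : ContDiff ℝ 2 (dd e (dd e (dd e V))) := h2 (k := 0) hdeee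
  -- commutation
  have hc1 : ∀ a b : E n, dd e (dd a (dd b V)) = dd a (dd b (dd e V)) := by
    intro a b
    rw [dd_comm (h2 (k := 2) (hda b)) e a, dd_comm hV2 e b]
  have hc2 : ∀ a b : E n, dd e (dd e (dd a (dd b V))) = dd a (dd b (dd e (dd e V))) := by
    intro a b
    rw [hc1 a b, dd_comm (h2 (k := 1) (dd_contDiff hde b)) e a, dd_comm hde2 e b]
  have hc3 : ∀ a b : E n,
      dd e (dd e (dd e (dd a (dd b V)))) = dd a (dd b (dd e (dd e (dd e V)))) := by
    intro a b
    rw [hc2 a b, dd_comm (h2 (k := 0) (dd_contDiff hdee b)) e a, dd_comm hdee2 e b]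
  -- the curve
  set a : Fin n → E n := fun j => colv P j with ha
  let g0 : ℝ → Mt n := fun s => Matrix.of fun i j => dd (a i) (dd (a j) V) (x0 + s • e)
  let g1 : ℝ → Mt n := fun s => Matrix.of fun i j => dd (a i) (dd (a j) (dd e V)) (x0 + s • e)
  let g2 : ℝ → Mt n := fun s =>
    Matrix.of fun i j => dd (a i) (dd (a j) (dd e (dd e V))) (x0 + s • e)
  let g3 : ℝ → Mt n := fun s =>
    Matrix.of fun i j => dd (a i) (dd (a j) (dd e (dd e (dd e V)))) (x0 + s • e)
  have hdiff1 : ∀ {k : ℕ} {f : E n → ℝ}, ContDiff ℝ (k + 1 : ℕ) f → Differentiable ℝ f := by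
    intro k f hf
    exact hf.differentiable (by simp)
  have H1 : ∀ s i j, HasDerivAt (fun r => g0 r i j) (g1 s i j) s := by
    intro s i j
    have := hasDerivAt_line (hdiff1 (hdab (a i) (a j))) x0 e s
    rw [hc1] at this
    exact this
  have H2 : ∀ s i j, HasDerivAt (fun r => g1 r i j) (g2 s i j) s := by
    intro s i j
    have := hasDerivAt_line (hdiff1 (k := 1) (dd_contDiff (dd_contDiff hde (a j)) (a i))) x0 e s
    rw [show dd e (dd (a i) (dd (a j) (dd e V))) = dd (a i) (dd (a j) (dd e (dd e V))) by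
      rw [← hc1, hc2]] at this
    exact this
  have H3 : ∀ s i j, HasDerivAt (fun r => g2 r i j) (g3 s i j) s := by
    intro s i j
    have := hasDerivAt_line (hdiff1 (k := 0) (dd_contDiff (dd_contDiff hdee (a j)) (a i))) x0 e s
    rw [show dd e (dd (a i) (dd (a j) (dd e (dd e V)))) =
      dd (a i) (dd (a j) (dd e (dd e (dd e V)))) by rw [← hc2, hc3]] at this
    exact this
  have hg0 : ∀ s, g0 s = P.transpose * hess V (x0 + s • e) * P := by
    intro s
    ext i j
    exact conj_entry hV2 P _ i j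
  have hdetP : P.det ^ 2 * (hess V x0).det = 1 := by
    have := congrArg Matrix.det hP
    rw [Matrix.det_mul, Matrix.det_mul, Matrix.det_transpose, Matrix.det_one] at this
    linarith [this]
  have hdetP2 : 0 < P.det ^ 2 := by
    by_contra h
    push Not at h
    have : P.det ^ 2 * (hess V x0).det ≤ 0 := mul_nonpos_of_nonpos_of_nonneg h (hpos x0).le
    linarith
  have hdetg : ∀ s, (g0 s).det = P.det ^ 2 * (hess V (x0 + s • e)).det := by
    intro s
    rw [hg0, Matrix.det_mul, Matrix.det_mul, Matrix.det_transpose]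
    ring
  have hgpos : ∀ s, 0 < (g0 s).det := fun s => by
    rw [hdetg]; exact mul_pos hdetP2 (hpos _)
  have hg00 : g0 0 = 1 := by rw [hg0, zero_smul, add_zero, hP]
  obtain ⟨L1, L2, L3, hL1, hL2, hL3, e1, e2, e3⟩ := hL n g0 g1 g2 g3 H1 H2 H3 hgpos hg00
  -- the right hand side
  let R0 : E n → ℝ := fun x => eul V x - V x - qn x - F x
  let R1 : E n → ℝ := fun x => eul (dd e V) x - dd e qn x - dd e F x
  let R2 : E n → ℝ := fun x => dd e (dd e V) x + eul (dd e (dd e V)) x - ‖e‖ ^ 2 - dd e (dd e F) x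
  let R3 : E n → ℝ := fun x =>
    2 * dd e (dd e (dd e V)) x + eul (dd e (dd e (dd e V))) x - dd e (dd e (dd e F)) x
  have hF5 : ContDiff ℝ (4 + 1 : ℕ) F := by exact_mod_cast hF
  have hFe : ContDiff ℝ (3 + 1 : ℕ) (dd e F) := dd_contDiff hF5 e
  have hFee : ContDiff ℝ (2 + 1 : ℕ) (dd e (dd e F)) := dd_contDiff hFe e
  have hlog : ∀ s, Real.log (g0 s).det = Real.log (P.det ^ 2) + R0 (x0 + s • e) := by
    intro s
    rw [hdetg, Real.log_mul hdetP2.ne' (hpos _).ne']
    have := heq (x0 + s • e)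
    simp only [WW] at this
    simp only [R0]
    linarith
  have D0 : ∀ s, HasDerivAt (fun r => Real.log (g0 r).det) (R1 (x0 + s • e)) s := by
    intro s
    have a1 := hasDerivAt_line (hdiff1 (eul_contDiff hV5)) x0 e s
    rw [dd_eul hV2] at a1
    have a2 := hasDerivAt_line (hdiff1 hV5) x0 e s
    have a3 := hasDerivAt_line (hdiff1 (k := 0) qn_contDiff) x0 e s
    have a4 := hasDerivAt_line (hdiff1 hF5) x0 e s
    have a5 := (((a1.sub a2).sub a3).sub a4).const_add (Real.log (P.det ^ 2))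
    have hfun : (fun r => Real.log (g0 r).det) = fun r => Real.log (P.det ^ 2) +
        (eul V (x0 + r • e) - V (x0 + r • e) - qn (x0 + r • e) - F (x0 + r • e)) := by
      funext r
      exact hlog r
    rw [hfun]
    have hval : R1 (x0 + s • e) = dd e V (x0 + s • e) + eul (dd e V) (x0 + s • e)
        - dd e V (x0 + s • e) - dd e qn (x0 + s • e) - dd e F (x0 + s • e) := by
      show eul (dd e V) (x0 + s • e) - dd e qn (x0 + s • e) - dd e F (x0 + s • e) = _
      ring
    rw [hval]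
    exact a5
  have U1 : ∀ s, L1 s = R1 (x0 + s • e) := fun s => (hL1 s).unique (D0 s)
  have D1 : ∀ s, HasDerivAt L1 (R2 (x0 + s • e)) s := by
    intro s
    have a1 := hasDerivAt_line (hdiff1 (eul_contDiff hde)) x0 e s
    rw [dd_eul hde2] at a1
    have hq1 : Differentiable ℝ (dd e (qn (n := n))) := by
      rw [dd_qn]; exact differentiable_id.inner ℝ (differentiable_const e)
    have a3 := hasDerivAt_line hq1 x0 e s
    rw [dd_dd_qn] at a3
    have a4 := hasDerivAt_line (hdiff1 hFe) x0 e s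
    have a5 := (a1.sub a3).sub a4
    have hfun : L1 = fun r => eul (dd e V) (x0 + r • e) - dd e qn (x0 + r • e)
        - dd e F (x0 + r • e) := by
      funext r
      exact U1 r
    rw [hfun]
    exact a5
  have U2 : ∀ s, L2 s = R2 (x0 + s • e) := fun s => (hL2 s).unique (D1 s)
  have D2 : ∀ s, HasDerivAt L2 (R3 (x0 + s • e)) s := by
    intro s
    have a0 := hasDerivAt_line (hdiff1 hdee) x0 e s
    have a1 := hasDerivAt_line (hdiff1 (eul_contDiff hdee)) x0 e s
    rw [dd_eul hdee2] at a1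
    have a4 := hasDerivAt_line (hdiff1 hFee) x0 e s
    have a5 := ((a0.add a1).sub_const (‖e‖ ^ 2)).sub a4
    have hfun : L2 = fun r => dd e (dd e V) (x0 + r • e) + eul (dd e (dd e V)) (x0 + r • e)
        - ‖e‖ ^ 2 - dd e (dd e F) (x0 + r • e) := by
      funext r
      exact U2 r
    rw [hfun]
    have hval : R3 (x0 + s • e) = dd e (dd e (dd e V)) (x0 + s • e)
        + (dd e (dd e (dd e V)) (x0 + s • e) + eul (dd e (dd e (dd e V))) (x0 + s • e))
        - dd e (dd e (dd e F)) (x0 + s • e) := by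
      show 2 * dd e (dd e (dd e V)) (x0 + s • e) + eul (dd e (dd e (dd e V))) (x0 + s • e)
        - dd e (dd e (dd e F)) (x0 + s • e) = _
      ring
    rw [hval]
    exact a5
  have U3 : ∀ s, L3 s = R3 (x0 + s • e) := fun s => (hL3 s).unique (D2 s)
  -- values at zero
  have hg1 : g1 0 = Matrix.diagonal l := by
    ext i j
    simp only [g1, Matrix.of_apply, zero_smul, add_zero]
    rw [conj_entry hde2, hT]
  have t2 : (g2 0).trace = ∑ j, dd (a j) (dd (a j) (dd e (dd e V))) x0 := by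
    simp [Matrix.trace, g2]
  have t3 : (g3 0).trace = ∑ j, dd (a j) (dd (a j) (dd e (dd e (dd e V)))) x0 := by
    simp [Matrix.trace, g3]
  have t11 : (g1 0 * g1 0).trace = ∑ j, l j ^ 2 := by
    rw [hg1, Matrix.diagonal_mul_diagonal, Matrix.trace_diagonal]
    exact Finset.sum_congr rfl fun j _ => by ring
  have t12 : (g1 0 * g2 0).trace = ∑ j, l j * dd (a j) (dd (a j) (dd e (dd e V))) x0 := by
    rw [hg1]
    simp only [Matrix.trace, Matrix.diag_apply, Matrix.diagonal_mul]
    simp [g2]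
  have t111 : (g1 0 * g1 0 * g1 0).trace = ∑ j, l j ^ 3 := by
    rw [hg1, Matrix.diagonal_mul_diagonal, Matrix.diagonal_mul_diagonal, Matrix.trace_diagonal]
    exact Finset.sum_congr rfl fun j _ => by ring
  have u2 := U2 0
  have u3 := U3 0
  rw [e2, t2, t11, zero_smul, add_zero] at u2
  rw [e3, t3, t12, t111, zero_smul, add_zero] at u3
  simp only [R2] at u2
  simp only [R3] at u3
  constructor
  · linarith
  · linarith

end CM
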